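import Pool.Agent.Cov8.Basic

set_option autoImplicit false

namespace Pool.Agent.Cov8

open N8b55e67f Pool.Agent.H33.Cov
open scoped ENNReal Pointwise

/-- size of the ball -/
noncomputable def HB (r n : ℕ) : ℕ := Nat.card (hammingBall n r)

lemma HB_succ (r n : ℕ) : HB r n ≤ HB r (n + 1) := by
  classical
  unfold HB
  have hcons : ∀ b : 𝔽₂ n, hammingNorm b ≤ r → hammingNorm (Fin.cons 0 b : 𝔽₂ (n + 1)) ≤ r := by
    intro b hb'
    refine le_trans ?_ hb'
    unfold hammingNorm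
    rw [← Finset.card_map (Fin.succEmb n)]
    apply Finset.card_le_card
    intro i hi
    rw [Finset.mem_filter] at hi
    rw [Finset.mem_map]
    obtain h0 | ⟨j, rfl⟩ : i = 0 ∨ ∃ j : Fin n, i = j.succ := by
      induction i using Fin.cases with
      | zero => left; rfl
      | succ j => right; exact ⟨j, rfl⟩
    · exfalso
      apply hi.2
      rw [h0, Fin.cons_zero]
    · refine ⟨j, ?_, rfl⟩
      have h3 := hi.2
      rw [Fin.cons_succ] at h3
      rw [Finset.mem_filter]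
      exact ⟨Finset.mem_univ _, h3⟩
  apply Nat.card_le_card_of_injective
    (fun b : hammingBall n r => (⟨Fin.cons 0 (b : 𝔽₂ n), hcons _ b.2⟩ : hammingBall (n + 1) r))
  intro x y hxy
  have h := congrArg Subtype.val hxy
  apply Subtype.ext
  funext i
  have h2 := congrFun h i.succ
  simp only [Fin.cons_succ] at h2
  exact h2

lemma HB_mono (r : ℕ) : Monotone (HB r) := monotone_nat_of_le_succ (HB_succ r)

lemma HB_ge (r n : ℕ) : n.choose r ≤ HB r n := by
  classical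
  unfold HB
  have h1 : n.choose r = Nat.card ((Finset.univ : Finset (Fin n)).powersetCard r) := by
    rw [Nat.card_eq_fintype_card, Fintype.card_coe, Finset.card_powersetCard, Finset.card_univ,
      Fintype.card_fin]
  rw [h1]
  apply Nat.card_le_card_of_injective
    (fun T : (Finset.univ : Finset (Fin n)).powersetCard r =>
      (⟨fun i => if i ∈ (T : Finset (Fin n)) then (1 : ZMod 2) else 0, by
        show hammingNorm _ ≤ r
        rw [hammingNorm_indicator]
        exact (Finset.mem_powersetCard.1 T.2).2.le⟩ : hammingBall n r))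
  intro S T hST
  have h := congrArg Subtype.val hST
  apply Subtype.ext
  ext i
  have h2 := congrFun h i
  simp only at h2
  by_cases h3 : i ∈ (S : Finset (Fin n)) <;> by_cases h4 : i ∈ (T : Finset (Fin n)) <;>
    simp [h3, h4] at h2 ⊢

lemma HB_le_real (r n : ℕ) : (HB r n : ℝ) ≤ ((n : ℝ) + r) ^ r / r.factorial := by
  have h1 : (HB r n : ℝ) ≤ ((n + r).choose r : ℕ) := by
    exact_mod_cast card_ball_le n r
  have h2 : (((n + r).choose r : ℕ) : ℝ) ≤ ((n + r : ℕ) : ℝ) ^ r / r.factorial :=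
    Nat.choose_le_pow_div r (n + r)
  push_cast at h2
  exact h1.trans h2

lemma HB_ge_real (r n : ℕ) (h : r ≤ n + 1) : ((n : ℝ) + 1 - r) ^ r / r.factorial ≤ (HB r n : ℝ) := by
  have h1 : ((n.choose r : ℕ) : ℝ) ≤ (HB r n : ℝ) := by exact_mod_cast HB_ge r n
  refine le_trans ?_ h1
  rw [div_le_iff₀ (by exact_mod_cast Nat.factorial_pos r)]
  have h2 := Nat.pow_sub_le_descFactorial n r
  rw [Nat.descFactorial_eq_factorial_mul_choose] at h2
  have h3 : ((n : ℝ) + 1 - r) = ((n + 1 - r : ℕ) : ℝ) := by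
    rw [Nat.cast_sub h]; push_cast; ring
  rw [h3]
  have h4 : (((n + 1 - r) ^ r : ℕ) : ℝ) ≤ ((r.factorial * n.choose r : ℕ) : ℝ) := by
    exact_mod_cast h2
  push_cast at h4
  linarith

lemma cover_card {r n : ℕ} {V : Submodule (ZMod 2) (𝔽₂ n)} (h : IsCoveringSubspace n r V) :
    2 ^ n ≤ Nat.card V * HB r n := by
  classical
  unfold HB
  rw [← Nat.card_prod]
  have h3 : Nat.card (𝔽₂ n) = 2 ^ n := by
    rw [Nat.card_eq_fintype_card, Fintype.card_pi]
    simp
  rw [← h3]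
  apply Nat.card_le_card_of_surjective
    (fun p : V × hammingBall n r => (p.1 : 𝔽₂ n) + (p.2 : 𝔽₂ n))
  intro y
  unfold IsCoveringSubspace at h
  rw [Set.eq_univ_iff_forall] at h
  obtain ⟨v, hv, b, hb, hvb⟩ := Set.mem_add.1 (h y)
  exact ⟨(⟨v, hv⟩, ⟨b, hb⟩), hvb⟩

lemma HasCode.pow_le {r n c : ℕ} (h : HasCode r n c) : 2 ^ c ≤ HB r n := by
  obtain ⟨V, h1, h2⟩ := h
  have h3 := h2.trans (cover_card h1)
  exact Nat.le_of_mul_le_mul_left h3 Nat.card_pos

lemma one_le_minDensity (n r : ℕ) : 1 ≤ minDensity n r := by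
  unfold minDensity
  refine le_iInf₂ fun V hV => ?_
  rw [ENNReal.le_div_iff_mul_le (Or.inl (by positivity)) (Or.inl (by simp)), one_mul]
  exact_mod_cast cover_card hV

lemma minDensity_le' {r n c : ℕ} (h : HasCode r n c) :
    minDensity n r ≤ ENNReal.ofReal ((HB r n : ℝ) / 2 ^ c) := by
  obtain ⟨V, h1, h2⟩ := h
  unfold minDensity
  refine (iInf₂_le V h1).trans ?_
  rw [ENNReal.ofReal_div_of_pos (by positivity), ENNReal.ofReal_natCast,
    ENNReal.ofReal_pow (by norm_num), ENNReal.ofReal_ofNat]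
  rw [ENNReal.div_le_iff (by positivity) (by simp)]
  have h3 : ((Nat.card V * 2 ^ c : ℕ) : ℝ≥0∞) ≤ ((2 ^ n : ℕ) : ℝ≥0∞) := by exact_mod_cast h2
  push_cast at h3
  calc (Nat.card V : ℝ≥0∞) * (Nat.card (hammingBall n r) : ℝ≥0∞)
      = (HB r n : ℝ≥0∞) / 2 ^ c * ((Nat.card V : ℝ≥0∞) * 2 ^ c) := by
        unfold HB
        rw [mul_comm (Nat.card V : ℝ≥0∞) (2 ^ c), ← mul_assoc,
          ENNReal.div_mul_cancel (by positivity) (by simp), mul_comm]
    _ ≤ (HB r n : ℝ≥0∞) / 2 ^ c * 2 ^ n := by gcongr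

lemma le_minDensity {r n c : ℕ} (h : ¬ HasCode r n (c + 1)) :
    ENNReal.ofReal ((HB r n : ℝ) / 2 ^ c) ≤ minDensity n r := by
  unfold minDensity
  refine le_iInf₂ fun V hV => ?_
  have h2 : ¬ (Nat.card V * 2 ^ (c + 1) ≤ 2 ^ n) := fun h' => h ⟨V, hV, h'⟩
  have h3 : Nat.card V = 2 ^ (Module.finrank (ZMod 2) V) := by
    rw [Module.natCard_eq_pow_finrank (K := ZMod 2), Nat.card_zmod]
  have h4 : 2 ^ n ≤ Nat.card V * 2 ^ c := by
    rw [h3, ← pow_add] at h2 ⊢
    rw [not_le, Nat.pow_lt_pow_iff_right (by norm_num)] at h2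
    exact Nat.pow_le_pow_right (by norm_num) (by omega)
  rw [ENNReal.ofReal_div_of_pos (by positivity), ENNReal.ofReal_natCast,
    ENNReal.ofReal_pow (by norm_num), ENNReal.ofReal_ofNat]
  rw [ENNReal.le_div_iff_mul_le (Or.inl (by positivity)) (Or.inl (by simp))]
  have h5 : ((2 ^ n : ℕ) : ℝ≥0∞) ≤ ((Nat.card V * 2 ^ c : ℕ) : ℝ≥0∞) := by exact_mod_cast h4
  push_cast at h5
  calc (HB r n : ℝ≥0∞) / 2 ^ c * 2 ^ n
      ≤ (HB r n : ℝ≥0∞) / 2 ^ c * ((Nat.card V : ℝ≥0∞) * 2 ^ c) := by gcongr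
    _ = (Nat.card V : ℝ≥0∞) * (Nat.card (hammingBall n r) : ℝ≥0∞) := by
        unfold HB
        rw [mul_comm (Nat.card V : ℝ≥0∞) (2 ^ c), ← mul_assoc,
          ENNReal.div_mul_cancel (by positivity) (by simp), mul_comm]

/-! ### the length function -/

lemma exists_code {r : ℕ} (hr : 1 ≤ r) (c : ℕ) : ∃ n, HasCode r n c := by
  induction c with
  | zero => exact ⟨0, hasCode_zero r⟩
  | succ c ih =>
    obtain ⟨n, hn⟩ := ih
    have h := hn.lift (m := n + r) (by omega) Nat.lt_two_pow_self.le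
    refine ⟨_, h.mono_c ?_⟩
    have : 1 ≤ r * (n + r) := Nat.mul_pos hr (by omega)
    omega

lemma hasCode_len {r : ℕ} (hr : 1 ≤ r) (c : ℕ) : HasCode r (len r c) c :=
  Nat.sInf_mem (exists_code hr c)

lemma hasCode_iff {r : ℕ} (hr : 1 ≤ r) (n c : ℕ) : HasCode r n c ↔ len r c ≤ n :=
  ⟨fun h => Nat.sInf_le h, fun h => (hasCode_len hr c).mono_n h⟩

lemma len_mono {r : ℕ} (hr : 1 ≤ r) {c c' : ℕ} (h : c ≤ c') : len r c ≤ len r c' :=
  (hasCode_iff hr _ _).1 ((hasCode_len hr c').mono_c h)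

lemma len_lift {r : ℕ} (hr : 1 ≤ r) (c m : ℕ) (hm : m ≠ 0) (h : len r c + r ≤ 2 ^ m) :
    len r (c + r * m) ≤ (len r c + r) * 2 ^ m :=
  (hasCode_iff hr _ _).1 ((hasCode_len hr c).lift hm h)

lemma tendsto_len {r : ℕ} (hr : 1 ≤ r) : Filter.Tendsto (len r) Filter.atTop Filter.atTop := by
  rw [Filter.tendsto_atTop]
  intro b
  filter_upwards [Filter.eventually_ge_atTop (HB r b)] with c hc
  by_contra hcon
  push Not at hcon
  have h1 := (hasCode_len hr c).pow_le
  have h2 := HB_mono r hcon.le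
  have h3 : c < 2 ^ c := Nat.lt_two_pow_self
  omega

end Pool.Agent.Cov8
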