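import Pool.Agent.H33.CovBase

set_option autoImplicit false

namespace Pool.Agent.Cov8

open N8b55e67f Pool.Agent.H33.Cov
open scoped ENNReal Pointwise

/-- there is a covering subspace of codimension at least `c` in length `n` for radius `r` -/
def HasCode (r n c : ℕ) : Prop :=
  ∃ V : Submodule (ZMod 2) (𝔽₂ n), IsCoveringSubspace n r V ∧ Nat.card V * 2 ^ c ≤ 2 ^ n

/-- the least length of a covering subspace of codimension at least `c` for radius `r` -/
noncomputable def len (r c : ℕ) : ℕ := sInf {n | HasCode r n c}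

lemma HasCode.mono_c {r n c c' : ℕ} (h : HasCode r n c') (hc : c ≤ c') : HasCode r n c := by
  obtain ⟨V, h1, h2⟩ := h
  exact ⟨V, h1, (Nat.mul_le_mul_left _ (Nat.pow_le_pow_right (by norm_num) hc)).trans h2⟩

lemma HasCode.succ {r n c : ℕ} (h : HasCode r n c) : HasCode r (n + 1) c := by
  classical
  obtain ⟨V, h1, h2⟩ := h
  let ρ : 𝔽₂ (n + 1) →ₗ[ZMod 2] 𝔽₂ n :=
    { toFun := fun x i => x i.succ
      map_add' := fun _ _ => rfl
      map_smul' := fun _ _ => rfl }
  refine ⟨V.comap ρ, ?_, ?_⟩
  · unfold IsCoveringSubspace at *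
    rw [Set.eq_univ_iff_forall] at *
    intro y
    obtain ⟨v, hv, b, hb, hvb⟩ := Set.mem_add.1 (h1 (ρ y))
    refine Set.mem_add.2 ⟨y - Fin.cons 0 b, ?_, Fin.cons 0 b, ?_, ?_⟩
    · rw [SetLike.mem_coe, Submodule.mem_comap, map_sub]
      have : ρ (Fin.cons 0 b) = b := by
        funext i
        show (Fin.cons 0 b : 𝔽₂ (n + 1)) i.succ = b i
        rw [Fin.cons_succ]
      rw [this, ← hvb, add_sub_cancel_right]
      exact hv
    · show hammingNorm _ ≤ r
      have hb' : hammingNorm b ≤ r := hb
      refine le_trans ?_ hb'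
      unfold hammingNorm
      rw [← Finset.card_map (Fin.succEmb n)]
      apply Finset.card_le_card
      intro i hi
      rw [Finset.mem_filter] at hi
      rw [Finset.mem_map]
      obtain h0 | ⟨j, rfl⟩ : i = 0 ∨ ∃ j : Fin n, i = j.succ := by
        induction i using Fin.cases with
        | zero => left; rfl
        | succ j => right; exact ⟨j, rfl⟩
      · exfalso
        apply hi.2
        rw [h0, Fin.cons_zero]
      · refine ⟨j, ?_, rfl⟩
        have h3 := hi.2
        rw [Fin.cons_succ] at h3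
        rw [Finset.mem_filter]
        exact ⟨Finset.mem_univ _, h3⟩
    · rw [sub_add_cancel]
  · have hinj : Function.Injective (fun x : V.comap ρ => ((x : 𝔽₂ (n + 1)) 0,
        (⟨ρ x, x.2⟩ : V))) := by
      intro x y hxy
      apply Subtype.ext
      funext i
      refine Fin.cases ?_ (fun j => ?_) i
      · exact congrArg Prod.fst hxy
      · have := congrArg (fun p : ZMod 2 × V => (p.2 : 𝔽₂ n) j) hxy
        exact this
    have hle := Nat.card_le_card_of_injective _ hinj
    rw [Nat.card_prod, Nat.card_zmod] at hle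
    calc Nat.card (V.comap ρ) * 2 ^ c ≤ (2 * Nat.card V) * 2 ^ c := Nat.mul_le_mul_right _ hle
      _ = 2 * (Nat.card V * 2 ^ c) := by ring
      _ ≤ 2 * 2 ^ n := Nat.mul_le_mul_left _ h2
      _ = 2 ^ (n + 1) := by ring

lemma HasCode.mono_n {r n n' c : ℕ} (h : HasCode r n c) (hn : n ≤ n') : HasCode r n' c := by
  induction n', hn using Nat.le_induction with
  | base => exact h
  | succ k _ ih => exact ih.succ

lemma hasCode_zero (r : ℕ) : HasCode r 0 0 := by
  refine ⟨⊤, ?_, ?_⟩
  · unfold IsCoveringSubspace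
    rw [Set.eq_univ_iff_forall]
    intro y
    refine Set.mem_add.2 ⟨y, trivial, 0, ?_, add_zero y⟩
    show hammingNorm (0 : 𝔽₂ 0) ≤ r
    rw [hammingNorm_zero]
    exact Nat.zero_le _
  · have : Nat.card (⊤ : Submodule (ZMod 2) (𝔽₂ 0)) ≤ 1 := by
      have h1 : Nat.card (⊤ : Submodule (ZMod 2) (𝔽₂ 0)) ≤ Nat.card (𝔽₂ 0) :=
        Nat.card_le_card_of_injective _ Subtype.val_injective
      refine h1.trans ?_
      rw [Nat.card_eq_fintype_card, Fintype.card_pi]
      simp
    simp

/-- a covering by sums of exactly `r` columns gives a code -/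
lemma hasCode_of_coversEq {W : Type} [AddCommGroup W] [Module (ZMod 2) W] [Finite W] {n r c : ℕ}
    {h : Fin n → W} (hc : CoversEq r h) (hW : Nat.card W = 2 ^ c) : HasCode r n c := by
  classical
  let H : 𝔽₂ n →ₗ[ZMod 2] W := Fintype.linearCombination (ZMod 2) h
  have hH : ∀ T : Finset (Fin n), H (fun i => if i ∈ T then (1 : ZMod 2) else 0) = ∑ i ∈ T, h i := by
    intro T
    rw [Fintype.linearCombination_apply]
    simp only [ite_smul, one_smul, zero_smul]
    rw [Finset.sum_ite_mem, Finset.univ_inter]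
  have hsurj : Function.Surjective H := by
    intro w
    obtain ⟨T, _, hw⟩ := hc w
    exact ⟨_, (hH T).trans hw⟩
  refine ⟨LinearMap.ker H, ?_, ?_⟩
  · unfold IsCoveringSubspace
    rw [Set.eq_univ_iff_forall]
    intro y
    obtain ⟨T, hT, hw⟩ := hc (H y)
    refine Set.mem_add.2 ⟨y - (fun i => if i ∈ T then (1 : ZMod 2) else 0), ?_,
      (fun i => if i ∈ T then (1 : ZMod 2) else 0), ?_, ?_⟩
    · rw [SetLike.mem_coe, LinearMap.mem_ker, map_sub, hH, hw, sub_self]
    · show hammingNorm _ ≤ r
      rw [hammingNorm_indicator, hT]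
    · rw [sub_add_cancel]
  · have h1 := Submodule.card_eq_card_quotient_mul_card (LinearMap.ker H)
    have h2 : Nat.card (𝔽₂ n ⧸ LinearMap.ker H) = Nat.card W :=
      Nat.card_congr (LinearMap.quotKerEquivOfSurjective H hsurj).toEquiv
    rw [h2, hW] at h1
    have h3 : Nat.card (𝔽₂ n) = 2 ^ n := by
      rw [Nat.card_eq_fintype_card, Fintype.card_pi]
      simp
    rw [h3] at h1
    rw [h1, mul_comm]

/-- the lift -/
lemma HasCode.lift {r n c m : ℕ} (h : HasCode r n c) (hm : m ≠ 0) (hnm : n + r ≤ 2 ^ m) :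
    HasCode r ((n + r) * 2 ^ m) (c + r * m) := by
  classical
  obtain ⟨V, h1, h2⟩ := h
  -- columns
  let W := 𝔽₂ n ⧸ V
  let q : 𝔽₂ n →ₗ[ZMod 2] W := V.mkQ
  let col : Fin n → W := fun i => q (Pi.single i 1)
  have hcol : ∀ x : 𝔽₂ n, q x = ∑ i ∈ Finset.univ.filter (fun i => x i ≠ 0), col i := by
    intro x
    have hx : x = ∑ i ∈ Finset.univ.filter (fun i => x i ≠ 0), (Pi.single i 1 : 𝔽₂ n) := by
      funext j
      rw [Finset.sum_apply]
      simp only [Pi.single_apply]
      rw [Finset.sum_ite_eq]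
      have h2 : ∀ a : ZMod 2, a ≠ 0 → a = 1 := by decide
      by_cases hj : x j = 0
      · simp [hj]
      · simp [h2 _ hj]
    conv_lhs => rw [hx]
    rw [map_sum]
  -- exact covering with `r` further zero columns
  let col' : Fin n ⊕ Fin r → W := Sum.elim col 0
  have hcov : CoversEq r col' := by
    intro w
    obtain ⟨y, rfl⟩ : ∃ y, q y = w := Submodule.mkQ_surjective V w
    unfold IsCoveringSubspace at h1
    rw [Set.eq_univ_iff_forall] at h1
    obtain ⟨v, hv, b, hb, hvb⟩ := Set.mem_add.1 (h1 y)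
    have hb' : (Finset.univ.filter (fun i => b i ≠ 0)).card ≤ r := hb
    obtain ⟨S, hS⟩ : ∃ S : Finset (Fin r), S.card = r - (Finset.univ.filter (fun i => b i ≠ 0)).card := by
      obtain ⟨S, _, hS⟩ := Finset.exists_subset_card_eq
        (s := (Finset.univ : Finset (Fin r))) (n := r - (Finset.univ.filter (fun i => b i ≠ 0)).card)
        (by rw [Finset.card_univ, Fintype.card_fin]; omega)
      exact ⟨S, hS⟩
    refine ⟨(Finset.univ.filter (fun i => b i ≠ 0)).disjSum S, ?_, ?_⟩
    · rw [Finset.card_disjSum, hS]; omega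
    · rw [Finset.sum_disjSum]
      have e1 : ∑ i ∈ S, col' (Sum.inr i) = 0 := by
        apply Finset.sum_eq_zero
        intro i _
        rfl
      rw [e1, add_zero, ← hvb, map_add]
      have e2 : q v = 0 := by
        show V.mkQ v = 0
        rw [Submodule.mkQ_apply, Submodule.Quotient.mk_eq_zero]
        exact hv
      rw [e2, zero_add, hcol b]
      rfl
  have hcov2 : CoversEq r (Function.extend (finSumFinEquiv : Fin n ⊕ Fin r ≃ Fin (n + r)).toEmbedding
      col' 0) := hcov.extend _
  have : Fact (Nat.Prime 2) := ⟨Nat.prime_two⟩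
  let F := GaloisField 2 m
  have : Finite F := inferInstance
  let _ : Fintype F := Fintype.ofFinite F
  have hF : Nat.card F = 2 ^ m := GaloisField.card 2 m hm
  obtain ⟨β⟩ : Nonempty (Fin (n + r) ↪ F) := by
    apply Function.Embedding.nonempty_of_card_le
    rw [Fintype.card_fin, ← Nat.card_eq_fintype_card, hF]
    exact hnm
  have hlift := hcov2.lift β.injective
  have hcard : Fintype.card (Fin (n + r) × F) ≤ Fintype.card (Fin ((n + r) * 2 ^ m)) := by
    rw [Fintype.card_prod, Fintype.card_fin, Fintype.card_fin, ← Nat.card_eq_fintype_card, hF]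
  obtain ⟨e⟩ := Function.Embedding.nonempty_of_card_le hcard
  have hext := hlift.extend e
  -- cardinality of the syndrome space
  have h3 : Nat.card V = 2 ^ (Module.finrank (ZMod 2) V) := by
    rw [Module.natCard_eq_pow_finrank (K := ZMod 2), Nat.card_zmod]
  have h4 : Nat.card W = 2 ^ (Module.finrank (ZMod 2) W) := by
    rw [Module.natCard_eq_pow_finrank (K := ZMod 2), Nat.card_zmod]
  have h5 : Nat.card (𝔽₂ n) = 2 ^ n := by
    rw [Nat.card_eq_fintype_card, Fintype.card_pi]
    simp
  have h6 := Submodule.card_eq_card_quotient_mul_card V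
  have h7 : c ≤ Module.finrank (ZMod 2) W := by
    have h8 : Nat.card V * 2 ^ c ≤ Nat.card V * Nat.card W := by
      rw [h5] at h6
      calc Nat.card V * 2 ^ c ≤ 2 ^ n := h2
        _ = _ := by rw [h6]
    have h9 : 0 < Nat.card V := Nat.card_pos
    have h10 := Nat.le_of_mul_le_mul_left h8 h9
    rw [h4] at h10
    exact (Nat.pow_le_pow_iff_right (by norm_num)).1 h10
  have hcW : Nat.card (W × (Fin r → F)) = 2 ^ (Module.finrank (ZMod 2) W + r * m) := by
    rw [Nat.card_prod, Nat.card_fun, hF, Nat.card_fin, h4, pow_add, mul_comm r m, pow_mul]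
  exact (hasCode_of_coversEq hext hcW).mono_c (by omega)

end Pool.Agent.Cov8
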