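import Pool.Agent.Cov8.Ball

set_option autoImplicit false

namespace Pool.Agent.Cov8

open Filter Topology

/-- normalised density of the length function -/
noncomputable def T (r : ℕ) (a : ℝ) (c : ℕ) : ℝ := ((len r c : ℝ) + a) ^ r / (r.factorial * 2 ^ c)

lemma T_nonneg (r c : ℕ) {a : ℝ} (ha : 0 ≤ a) : 0 ≤ T r a c := by
  unfold T; positivity

lemma rho_tendsto {r : ℕ} (hr : 1 ≤ r) (a : ℝ) :
    Tendsto (fun c => (1 + a / (len r c : ℝ)) ^ r) atTop (𝓝 1) := by
  have h1 : Tendsto (fun c => a / (len r c : ℝ)) atTop (𝓝 0) :=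
    Tendsto.div_atTop tendsto_const_nhds (tendsto_natCast_atTop_atTop.comp (tendsto_len hr))
  have h2 : Tendsto (fun c => (1 + a / (len r c : ℝ)) ^ r) atTop (𝓝 ((1 + 0) ^ r)) :=
    (h1.const_add 1).pow r
  simpa using h2

lemma T_eq {r : ℕ} (hr : 1 ≤ r) (a : ℝ) :
    ∀ᶠ c in atTop, T r a c = T r 0 c * (1 + a / (len r c : ℝ)) ^ r := by
  filter_upwards [(tendsto_len hr).eventually_ge_atTop 1] with c hc
  have h1 : (0 : ℝ) < len r c := by exact_mod_cast hc
  unfold T
  rw [add_zero, div_mul_eq_mul_div, ← mul_pow]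
  congr 2
  field_simp

/-- comparison of a value with all later ones in the same residue class -/
lemma later_le {r : ℕ} (hr : 1 ≤ r) (c : ℕ) : ∀ᶠ k in atTop, T r 0 (c + r * k) ≤ T r r c := by
  filter_upwards [eventually_ge_atTop (len r c + r)] with k hk
  have h1 : len r c + r ≤ 2 ^ k := hk.trans Nat.lt_two_pow_self.le
  have h2 := len_lift hr c k (by omega) h1
  have h3 : (len r (c + r * k) : ℝ) ≤ ((len r c : ℝ) + r) * 2 ^ k := by exact_mod_cast h2
  unfold T
  rw [add_zero, div_le_div_iff₀ (by positivity) (by positivity)]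
  have h4 : (len r (c + r * k) : ℝ) ^ r ≤ (((len r c : ℝ) + r) * 2 ^ k) ^ r :=
    pow_le_pow_left₀ (by positivity) h3 r
  calc (len r (c + r * k) : ℝ) ^ r * (r.factorial * 2 ^ c)
      ≤ (((len r c : ℝ) + r) * 2 ^ k) ^ r * (r.factorial * 2 ^ c) := by gcongr
    _ = ((len r c : ℝ) + r) ^ r * (r.factorial * 2 ^ (c + r * k)) := by
        rw [mul_pow, pow_add, mul_comm r k, pow_mul]; ring

lemma sub_tendsto {r : ℕ} (hr : 1 ≤ r) (j : ℕ) : Tendsto (fun m : ℕ => j + r * m) atTop atTop := by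
  apply tendsto_atTop_mono (f := fun m => m) _ tendsto_id
  intro m
  have : m ≤ r * m := Nat.le_mul_of_pos_left _ hr
  show m ≤ j + r * m
  omega

/-- the limit along a residue class -/
noncomputable def Lj (r j : ℕ) : ℝ := ⨅ m : ℕ, T r r (j + r * m)

lemma Lj_le {r : ℕ} (j m : ℕ) : Lj r j ≤ T r r (j + r * m) := by
  apply ciInf_le
  exact ⟨0, by rintro _ ⟨m, rfl⟩; exact T_nonneg _ _ (by positivity)⟩

theorem tendsto_T0 {r : ℕ} (hr : 1 ≤ r) (j : ℕ) :
    Tendsto (fun m => T r 0 (j + r * m)) atTop (𝓝 (Lj r j)) := by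
  have hsub := sub_tendsto hr j
  -- boundedness
  have hb : ∀ᶠ m in atTop, T r 0 (j + r * m) ≤ T r r j := later_le hr j
  -- the difference of `T r r` and `T r 0` tends to zero
  have hrho : Tendsto (fun m => (1 + (r : ℝ) / (len r (j + r * m) : ℝ)) ^ r - 1) atTop (𝓝 0) := by
    have := ((rho_tendsto hr (r : ℝ)).comp hsub).sub_const 1
    simpa using this
  rw [Metric.tendsto_atTop] at hrho
  rw [Metric.tendsto_atTop]
  intro ε hε
  -- upper bound
  obtain ⟨m0, hm0⟩ : ∃ m0, T r r (j + r * m0) < Lj r j + ε := exists_lt_of_ciInf_lt (by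
    unfold Lj; linarith)
  have hup : ∀ᶠ k in atTop, T r 0 (j + r * k) ≤ T r r (j + r * m0) := by
    have h1 := later_le hr (j + r * m0)
    rw [eventually_atTop] at h1 ⊢
    obtain ⟨K, hK⟩ := h1
    refine ⟨m0 + K, fun k hk => ?_⟩
    have h2 := hK (k - m0) (by omega)
    have h3 : j + r * m0 + r * (k - m0) = j + r * k := by
      rw [add_assoc, ← Nat.mul_add]; congr 2; omega
    rwa [h3] at h2
  have hB : 0 ≤ T r r j := T_nonneg _ _ (by positivity)
  obtain ⟨M1, hM1⟩ := hrho (ε / (T r r j + 1)) (by positivity)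
  have he := hsub.eventually (T_eq hr (r : ℝ))
  have hall := (hb.and (hup.and (he.and (eventually_ge_atTop M1))))
  rw [eventually_atTop] at hall
  obtain ⟨N, hN⟩ := hall
  refine ⟨N, fun k hk => ?_⟩
  obtain ⟨h1, h2, h3, h4⟩ := hN k hk
  have h5 := hM1 k h4
  rw [Real.dist_eq, sub_zero, abs_lt] at h5
  rw [Real.dist_eq, abs_lt]
  constructor
  · have h6 := Lj_le (r := r) j k
    rw [h3] at h6
    have h7 : 0 ≤ T r 0 (j + r * k) := T_nonneg _ _ le_rfl
    have h8 : T r 0 (j + r * k) * ((1 + (r : ℝ) / (len r (j + r * k) : ℝ)) ^ r - 1) < ε := by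
      calc T r 0 (j + r * k) * ((1 + (r : ℝ) / (len r (j + r * k) : ℝ)) ^ r - 1)
          ≤ T r 0 (j + r * k) * (ε / (T r r j + 1)) := by
            apply mul_le_mul_of_nonneg_left h5.2.le h7
        _ ≤ T r r j * (ε / (T r r j + 1)) := by
            apply mul_le_mul_of_nonneg_right h1 (by positivity)
        _ < ε := by
            rw [mul_div_assoc', div_lt_iff₀ (by positivity)]
            nlinarith
    linarith
  · linarith

theorem tendsto_T {r : ℕ} (hr : 1 ≤ r) (j : ℕ) (a : ℝ) :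
    Tendsto (fun m => T r a (j + r * m)) atTop (𝓝 (Lj r j)) := by
  have hsub := sub_tendsto hr j
  have h1 := (tendsto_T0 hr j).mul ((rho_tendsto hr a).comp hsub)
  rw [mul_one] at h1
  refine h1.congr' ?_
  filter_upwards [hsub.eventually (T_eq hr a)] with m hm
  exact hm.symm

/-- splitting into residue classes -/
lemma eventually_classes {r : ℕ} (hr : 1 ≤ r) {P : ℕ → ℕ → Prop}
    (h : ∀ j < r, ∀ᶠ m in atTop, P j (j + r * m)) : ∀ᶠ c in atTop, P (c % r) c := by
  have h1 : ∀ᶠ m in atTop, ∀ j ∈ Finset.range r, P j (j + r * m) := by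
    rw [Finset.eventually_all]
    intro j hj
    exact h j (Finset.mem_range.1 hj)
  have h2 : Tendsto (fun c : ℕ => c / r) atTop atTop := Nat.tendsto_div_const_atTop (by omega)
  filter_upwards [h2.eventually h1] with c hc
  have h3 := hc (c % r) (Finset.mem_range.2 (Nat.mod_lt _ hr))
  rwa [Nat.mod_add_div] at h3

lemma one_le_Lj {r : ℕ} (hr : 1 ≤ r) (j : ℕ) : 1 ≤ Lj r j := by
  apply ge_of_tendsto (tendsto_T hr j (r : ℝ))
  refine Eventually.of_forall fun m => ?_
  have h1 := (hasCode_len hr (j + r * m)).pow_le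
  have h2 := HB_le_real r (len r (j + r * m))
  have h3 : ((2 ^ (j + r * m) : ℕ) : ℝ) ≤ (HB r (len r (j + r * m)) : ℝ) := by exact_mod_cast h1
  push_cast at h3
  unfold T
  rw [le_div_iff₀ (by positivity), one_mul]
  have h4 := h3.trans h2
  rw [le_div_iff₀ (by exact_mod_cast Nat.factorial_pos r)] at h4
  linarith

end Pool.Agent.Cov8
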