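import Pool.Agent.Cov8.Lim

set_option autoImplicit false

namespace Pool.Agent.Cov8

open N8b55e67f Filter Topology
open scoped ENNReal

/-- the largest codimension available in length `n` -/
noncomputable def cm (r n : ℕ) : ℕ := by
  classical
  exact Nat.findGreatest (fun c => HasCode r n c) (HB r n)

lemma cm_spec {r : ℕ} (_hr : 1 ≤ r) (n : ℕ) : HasCode r n (cm r n) := by
  classical
  unfold cm
  apply Nat.findGreatest_spec (P := fun c => HasCode r n c) (m := 0) (Nat.zero_le _)
  exact (hasCode_zero r).mono_n (Nat.zero_le n)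

lemma le_cm {r n c : ℕ} (h : HasCode r n c) : c ≤ cm r n := by
  classical
  unfold cm
  have h1 := h.pow_le
  have h2 : c < 2 ^ c := Nat.lt_two_pow_self
  exact Nat.le_findGreatest (by omega) h

lemma cm_max (r n : ℕ) : ¬ HasCode r n (cm r n + 1) := by
  intro h
  have := le_cm h
  omega

lemma tendsto_cm {r : ℕ} (hr : 1 ≤ r) : Tendsto (cm r) atTop atTop := by
  rw [tendsto_atTop]
  intro b
  filter_upwards [eventually_ge_atTop (len r b)] with n hn
  exact le_cm ((hasCode_iff hr n b).2 hn)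

lemma f_le_Lj {r : ℕ} (hr : 1 ≤ r) (j : ℕ) : f r ≤ ENNReal.ofReal (Lj r j) := by
  have hn : Tendsto (fun m => len r (j + r * m)) atTop atTop := (tendsto_len hr).comp (sub_tendsto hr j)
  have h1 : f r ≤ liminf (fun m => minDensity (len r (j + r * m)) r) atTop := by
    unfold f
    exact liminf_le_liminf_of_le (u := fun n => minDensity n r) (f := atTop)
      (g := map (fun m => len r (j + r * m)) atTop) hn
  refine h1.trans ?_
  have h2 : Tendsto (fun m => ENNReal.ofReal (T r r (j + r * m))) atTop (𝓝 (ENNReal.ofReal (Lj r j))) :=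
    (ENNReal.continuous_ofReal.tendsto _).comp (tendsto_T hr j r)
  rw [← h2.liminf_eq]
  refine liminf_le_liminf (Eventually.of_forall fun m => ?_) (by isBoundedDefault)
    (by isBoundedDefault)
  refine (minDensity_le' (hasCode_len hr (j + r * m))).trans (ENNReal.ofReal_le_ofReal ?_)
  unfold T
  rw [div_le_div_iff₀ (by positivity) (by positivity)]
  have h3 := HB_le_real r (len r (j + r * m))
  rw [le_div_iff₀ (by exact_mod_cast Nat.factorial_pos r)] at h3
  calc (HB r (len r (j + r * m)) : ℝ) * (r.factorial * 2 ^ (j + r * m))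
      = (HB r (len r (j + r * m)) * r.factorial) * 2 ^ (j + r * m) := by ring
    _ ≤ ((len r (j + r * m) : ℝ) + r) ^ r * 2 ^ (j + r * m) := by gcongr

lemma Lj_le_f_all {r : ℕ} (hr : 1 ≤ r) (j : ℕ) : ENNReal.ofReal (2 * Lj r j) ≤ f_all r := by
  have hn : Tendsto (fun m => len r (j + r * m)) atTop atTop := (tendsto_len hr).comp (sub_tendsto hr j)
  have hn1 : Tendsto (fun m => len r (j + r * m) - 1) atTop atTop :=
    (tendsto_sub_atTop_nat 1).comp hn
  have h1 : limsup (fun m => minDensity (len r (j + r * m) - 1) r) atTop ≤ f_all r := by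
    unfold f_all
    exact limsup_le_limsup_of_le (u := fun n => minDensity n r) (g := atTop)
      (f := map (fun m => len r (j + r * m) - 1) atTop) hn1
  refine le_trans ?_ h1
  have h2 : Tendsto (fun m => ENNReal.ofReal (2 * T r (-r) (j + r * m))) atTop
      (𝓝 (ENNReal.ofReal (2 * Lj r j))) :=
    (ENNReal.continuous_ofReal.tendsto _).comp ((tendsto_T hr j (-r)).const_mul 2)
  rw [← h2.limsup_eq]
  refine limsup_le_limsup ?_ (by isBoundedDefault) (by isBoundedDefault)
  filter_upwards [hn.eventually_ge_atTop (r + 1), (sub_tendsto hr j).eventually_ge_atTop 1]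
    with m hm hc
  obtain ⟨c, hc'⟩ : ∃ c, j + r * m = c + 1 := ⟨j + r * m - 1, by omega⟩
  have h3 : ¬ HasCode r (len r (j + r * m) - 1) (c + 1) := by
    rw [← hc', hasCode_iff hr]
    omega
  refine le_trans (ENNReal.ofReal_le_ofReal ?_) (le_minDensity h3)
  have h4 := HB_ge_real r (len r (j + r * m) - 1) (by omega)
  have h5 : ((len r (j + r * m) - 1 : ℕ) : ℝ) = (len r (j + r * m) : ℝ) - 1 := by
    rw [Nat.cast_sub (by omega)]; simp
  rw [h5] at h4
  unfold T
  rw [hc'] at h4 ⊢
  rw [div_le_iff₀ (by exact_mod_cast Nat.factorial_pos r)] at h4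
  rw [le_div_iff₀ (by positivity), mul_div_assoc', div_mul_eq_mul_div,
    div_le_iff₀ (by positivity)]
  have h6 : ((len r (c + 1) : ℝ) - 1 + 1 - r) = (len r (c + 1) : ℝ) + -r := by ring
  rw [h6] at h4
  calc 2 * ((len r (c + 1) : ℝ) + -r) ^ r * 2 ^ c
      = ((len r (c + 1) : ℝ) + -r) ^ r * 2 ^ (c + 1) := by rw [pow_succ]; ring
    _ ≤ (HB r (len r (c + 1) - 1) * r.factorial) * 2 ^ (c + 1) := by gcongr
    _ = (HB r (len r (c + 1) - 1) : ℝ) * (r.factorial * 2 ^ (c + 1)) := by ring

lemma f_ge {r : ℕ} (hr : 1 ≤ r) (M : ℝ) (hM : ∀ j < r, M ≤ Lj r j) : ENNReal.ofReal M ≤ f r := by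
  apply le_of_forall_lt
  intro b hb
  have hbt : b ≠ ⊤ := hb.ne_top
  have hb' : b.toReal < M := by
    by_contra hcon
    push Not at hcon
    have := ENNReal.ofReal_le_ofReal hcon
    rw [ENNReal.ofReal_toReal hbt] at this
    exact absurd (lt_of_lt_of_le hb this) (lt_irrefl _)
  obtain ⟨M', h1, h2⟩ := exists_between hb'
  have h3 : ∀ᶠ c in atTop, M' < T r (1 - r) c := by
    refine eventually_classes hr (P := fun _ c => M' < T r (1 - r) c) ?_
    intro j hj
    exact (tendsto_T hr j (1 - r)).eventually (lt_mem_nhds (lt_of_lt_of_le h2 (hM j hj)))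
  have h4 : ENNReal.ofReal M' ≤ f r := by
    unfold f
    apply le_liminf_of_le
    · isBoundedDefault
    have h5 := (tendsto_len hr).comp (tendsto_cm hr)
    filter_upwards [(tendsto_cm hr).eventually h3, h5.eventually_ge_atTop r] with n hn hl
    refine le_trans (ENNReal.ofReal_le_ofReal ?_) (le_minDensity (cm_max r n))
    have hle : len r (cm r n) ≤ n := (hasCode_iff hr _ _).1 (cm_spec hr n)
    have hl' : r ≤ len r (cm r n) := hl
    have h6 := HB_ge_real r (len r (cm r n)) (by omega)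
    have h7 : (HB r (len r (cm r n)) : ℝ) ≤ HB r n := by exact_mod_cast HB_mono r hle
    refine hn.le.trans ?_
    unfold T
    rw [div_le_div_iff₀ (by positivity) (by positivity)]
    rw [div_le_iff₀ (by exact_mod_cast Nat.factorial_pos r)] at h6
    have h8 : (len r (cm r n) : ℝ) + (1 - r) = (len r (cm r n) : ℝ) + 1 - r := by ring
    rw [h8]
    calc ((len r (cm r n) : ℝ) + 1 - r) ^ r * 2 ^ cm r n
        ≤ (HB r (len r (cm r n)) * r.factorial) * 2 ^ cm r n := by gcongr
      _ ≤ (HB r n * r.factorial) * 2 ^ cm r n := by gcongr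
      _ = (HB r n : ℝ) * (r.factorial * 2 ^ cm r n) := by ring
  refine lt_of_lt_of_le ?_ h4
  rw [← ENNReal.ofReal_toReal hbt]
  exact (ENNReal.ofReal_lt_ofReal_iff_of_nonneg ENNReal.toReal_nonneg).2 h1

lemma f_all_le {r : ℕ} (hr : 1 ≤ r) (X : ℝ) (hX : ∀ j < r, Lj r j ≤ X) :
    f_all r ≤ ENNReal.ofReal (2 * X) := by
  have hX0 : 0 ≤ X := by
    have h1 := one_le_Lj hr 0
    have h2 := hX 0 hr
    linarith
  have h0 : ∀ ε : ℝ, 0 < ε → f_all r ≤ ENNReal.ofReal (2 * (X + ε)) := by
    intro ε hε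
    have h3 : ∀ᶠ c in atTop, T r r c < X + ε := by
      refine eventually_classes hr (P := fun _ c => T r r c < X + ε) ?_
      intro j hj
      exact (tendsto_T hr j r).eventually (gt_mem_nhds (by have := hX j hj; linarith))
    unfold f_all
    apply limsup_le_of_le
    · isBoundedDefault
    have h5 : Tendsto (fun n => cm r n + 1) atTop atTop :=
      (tendsto_add_atTop_nat 1).comp (tendsto_cm hr)
    filter_upwards [h5.eventually h3] with n hn
    refine (minDensity_le' (cm_spec hr n)).trans (ENNReal.ofReal_le_ofReal ?_)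
    have hlt : n ≤ len r (cm r n + 1) := by
      have h6 := cm_max r n
      rw [hasCode_iff hr] at h6
      omega
    have h7 : (HB r n : ℝ) ≤ HB r (len r (cm r n + 1)) := by exact_mod_cast HB_mono r hlt
    have h8 := HB_le_real r (len r (cm r n + 1))
    have h9 : (HB r n : ℝ) / 2 ^ cm r n ≤ 2 * T r r (cm r n + 1) := by
      unfold T
      rw [mul_div_assoc', div_le_div_iff₀ (by positivity) (by positivity)]
      rw [le_div_iff₀ (by exact_mod_cast Nat.factorial_pos r)] at h8
      calc (HB r n : ℝ) * (r.factorial * 2 ^ (cm r n + 1))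
          ≤ HB r (len r (cm r n + 1)) * (r.factorial * 2 ^ (cm r n + 1)) := by gcongr
        _ = (HB r (len r (cm r n + 1)) * r.factorial) * 2 ^ (cm r n + 1) := by ring
        _ ≤ ((len r (cm r n + 1) : ℝ) + r) ^ r * 2 ^ (cm r n + 1) := by gcongr
        _ = 2 * ((len r (cm r n + 1) : ℝ) + r) ^ r * 2 ^ cm r n := by rw [pow_succ]; ring
    linarith
  have h1 : Tendsto (fun ε : ℝ => ENNReal.ofReal (2 * (X + ε))) (𝓝[>] 0)
      (𝓝 (ENNReal.ofReal (2 * (X + 0)))) := by
    apply (ENNReal.continuous_ofReal.tendsto _).comp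
    have : Tendsto (fun ε : ℝ => 2 * (X + ε)) (𝓝 0) (𝓝 (2 * (X + 0))) := by
      apply Continuous.tendsto
      fun_prop
    exact this.mono_left nhdsWithin_le_nhds
  rw [add_zero] at h1
  apply ge_of_tendsto h1
  filter_upwards [self_mem_nhdsWithin] with ε hε
  exact h0 ε hε

/-- the limits of two classes differ at most by a factor `2 ^ (r - 1)` -/
lemma Lj_compare {r : ℕ} (hr : 1 ≤ r) {i j : ℕ} (hi : i < r) (hj : j < r) :
    Lj r i ≤ 2 ^ (r - 1) * Lj r j := by
  obtain ⟨d, e, hd, hde⟩ : ∃ d e : ℕ, d ≤ r - 1 ∧ i + d = j + r * e := by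
    by_cases h : i ≤ j
    · exact ⟨j - i, 0, by omega, by omega⟩
    · exact ⟨j + r - i, 1, by omega, by omega⟩
  have h1 : Tendsto (fun m => T r 0 (i + r * m)) atTop (𝓝 (Lj r i)) := tendsto_T0 hr i
  have h2 : Tendsto (fun m => 2 ^ d * T r 0 (j + r * (e + m))) atTop (𝓝 (2 ^ d * Lj r j)) := by
    apply Tendsto.const_mul
    have h3 : Tendsto (fun m : ℕ => e + m) atTop atTop := tendsto_atTop_mono (fun m => Nat.le_add_left m e) tendsto_id
    exact (tendsto_T0 hr j).comp h3
  have h3 : Lj r i ≤ 2 ^ d * Lj r j := by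
    apply le_of_tendsto_of_tendsto' h1 h2
    intro m
    have e1 : j + r * (e + m) = i + r * m + d := by rw [Nat.mul_add]; omega
    rw [e1]
    unfold T
    rw [add_zero, add_zero, mul_div_assoc', div_le_div_iff₀ (by positivity) (by positivity)]
    have h4 : (len r (i + r * m) : ℝ) ≤ len r (i + r * m + d) := by
      exact_mod_cast len_mono hr (by omega)
    calc (len r (i + r * m) : ℝ) ^ r * (r.factorial * 2 ^ (i + r * m + d))
        ≤ (len r (i + r * m + d) : ℝ) ^ r * (r.factorial * 2 ^ (i + r * m + d)) := by gcongr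
      _ = 2 ^ d * (len r (i + r * m + d) : ℝ) ^ r * (r.factorial * 2 ^ (i + r * m)) := by
        rw [pow_add]; ring
  refine h3.trans ?_
  have h4 := one_le_Lj hr j
  have h5 : (2 : ℝ) ^ d ≤ 2 ^ (r - 1) := pow_le_pow_right₀ (by norm_num) hd
  gcongr

end Pool.Agent.Cov8
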